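import Pool.Agent.H25.EE.TargetsB

/-! Board ee_modules, row NUM: the final numerical inequality. -/

set_option autoImplicit false

open Pool.Agent.H25.EE Polynomial Finset

namespace Pool.Agent.H6.EE5.NUM

private theorem pow_exp {x : ℝ} (hx : 0 < x) (n : ℕ) :
    x ^ n = Real.exp ((n : ℝ) * Real.log x) := by
  rw [← Real.log_pow, Real.exp_log (pow_pos hx n)]

/-- one of the two symmetric blocks of factors -/
private theorem block {x ρ M L b : ℝ} {J k : ℕ} (hx : x = (J : ℝ)) (hx2 : 2 ≤ x) (hρ : 1 ≤ ρ)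
    (hM : M = Real.log (2 * ρ)) (hL : L = Real.log x) (hb : b = (k : ℝ)) (hb0 : 0 ≤ b)
    (hb1 : b ≤ x ^ 4) :
    (2 * (ρ * (J : ℝ))) ^ k / Real.exp ((1 - 1 / 10000) * k * Real.log J) *
      (2 * (J : ℝ) ^ 2 * k * (J : ℝ) ^ 3) ^ (J ^ 2) ≤
    Real.exp (b * M + 1 / 10000 * b * L + 10 * x ^ 2 * L) := by
  have hx0 : 0 < x := by linarith
  have hρ0 : 0 < ρ := by linarith
  rw [← hx, ← hb, ← hL]
  have e1 : (2 * (ρ * x)) ^ k = Real.exp (b * (M + L)) := by
    rw [pow_exp (by positivity) k, hb, hM, hL, ← Real.log_mul (by positivity) (by positivity)]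
    congr 2
    ring_nf
  have e2 : (2 * x ^ 2 * b * x ^ 3) ^ (J ^ 2) ≤ Real.exp (10 * x ^ 2 * L) := by
    have h1 : 2 * x ^ 2 * b * x ^ 3 ≤ x ^ 10 := by
      have : 2 * x ^ 2 * b * x ^ 3 = (2 * x ^ 5) * b := by ring
      rw [this]
      calc (2 * x ^ 5) * b ≤ (2 * x ^ 5) * x ^ 4 :=
            mul_le_mul_of_nonneg_left hb1 (by positivity)
        _ = 2 * x ^ 9 := by ring
        _ ≤ x * x ^ 9 := mul_le_mul_of_nonneg_right hx2 (by positivity)
        _ = x ^ 10 := by ring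
    calc (2 * x ^ 2 * b * x ^ 3) ^ (J ^ 2) ≤ (x ^ 10) ^ (J ^ 2) :=
          pow_le_pow_left₀ (by positivity) h1 _
      _ = x ^ (10 * J ^ 2) := by rw [← pow_mul]
      _ = Real.exp (((10 * J ^ 2 : ℕ) : ℝ) * Real.log x) := pow_exp hx0 _
      _ = Real.exp (10 * x ^ 2 * L) := by
          rw [hL]
          push_cast
          rw [← hx]
  rw [e1, div_eq_mul_inv, ← Real.exp_neg, ← Real.exp_add]
  calc Real.exp (b * (M + L) + -((1 - 1 / 10000) * b * L)) * (2 * x ^ 2 * b * x ^ 3) ^ (J ^ 2)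
      ≤ Real.exp (b * (M + L) + -((1 - 1 / 10000) * b * L)) * Real.exp (10 * x ^ 2 * L) :=
        mul_le_mul_of_nonneg_left e2 (Real.exp_pos _).le
    _ = Real.exp (b * M + 1 / 10000 * b * L + 10 * x ^ 2 * L) := by
        rw [← Real.exp_add]
        congr 1
        ring

theorem pf_NUM : T_NUM := by
  intro ρ C1 hρ hC
  obtain ⟨M, hMdef⟩ : ∃ M, M = Real.log (2 * ρ) := ⟨_, rfl⟩
  have hM : 0 ≤ M := by
    rw [hMdef]
    exact Real.log_nonneg (by linarith)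
  have h1 : ∀ᶠ J : ℕ in Filter.atTop, 4000000 * M + 1 ≤ Real.log (J : ℝ) :=
    (Real.tendsto_log_atTop.comp tendsto_natCast_atTop_atTop).eventually_ge_atTop _
  have h2 : ∀ᶠ J : ℕ in Filter.atTop, 2000000 * (28 + C1) ≤ (J : ℝ) :=
    tendsto_natCast_atTop_atTop.eventually_ge_atTop _
  obtain ⟨J0, hJ0⟩ := Filter.eventually_atTop.mp (h1.and h2)
  refine ⟨J0, fun J hJ k k' hk1 hk2 hk3 hk4 => ?_⟩
  obtain ⟨hL1, hx1⟩ := hJ0 J hJ
  obtain ⟨x, hx⟩ : ∃ x : ℝ, x = (J : ℝ) := ⟨_, rfl⟩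
  obtain ⟨L, hL⟩ : ∃ L : ℝ, L = Real.log x := ⟨_, rfl⟩
  obtain ⟨a, ha⟩ : ∃ a : ℝ, a = (k : ℝ) := ⟨_, rfl⟩
  obtain ⟨b, hb⟩ : ∃ b : ℝ, b = (k' : ℝ) := ⟨_, rfl⟩
  have hk2' : x ^ 4 ≤ 1000 * a := by
    rw [hx, ha]
    exact_mod_cast hk2
  rw [← hx] at hx1 hL1 hk1 hk3 hk4
  rw [← hL] at hL1
  rw [← ha] at hk1
  rw [← hb] at hk3 hk4
  have hx2 : 2 ≤ x := by linarith
  have hx0 : 0 < x := by linarith
  have hLpos : 1 ≤ L := by linarith
  have hx4 : 0 < x ^ 4 := by positivity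
  have ha1 : a ≤ x ^ 4 := by linarith
  have hb1 : b ≤ x ^ 4 := by linarith
  have ha0 : 0 ≤ a := by rw [ha]; positivity
  have hb0 : 0 ≤ b := by rw [hb]; positivity
  have B1 := block hx hx2 hρ hMdef hL hb hb0 hb1
  have B2 := block hx hx2 hρ hMdef hL ha ha0 ha1
  have e0 : (J : ℝ) ^ (2 * k) * ((k : ℝ) * k') ≤ Real.exp (2 * a * L + 8 * L) := by
    rw [← hx, ← ha, ← hb]
    have h3 : x ^ (2 * k) = Real.exp (2 * a * L) := by
      rw [pow_exp hx0, hL, ha]
      push_cast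
      ring_nf
    have h4 : a * b ≤ Real.exp (8 * L) := by
      have : Real.exp (8 * L) = x ^ 8 := by
        rw [pow_exp hx0, hL]
        norm_num
      rw [this]
      calc a * b ≤ x ^ 4 * x ^ 4 := mul_le_mul ha1 hb1 hb0 hx4.le
        _ = x ^ 8 := by ring
    rw [h3, Real.exp_add]
    exact mul_le_mul_of_nonneg_left h4 (Real.exp_pos _).le
  -- the exponents
  have hxx : x ^ 2 * (28 + C1) * 2000000 ≤ x ^ 4 := by
    have : x ^ 2 * (2000000 * (28 + C1)) ≤ x ^ 2 * x ^ 2 := by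
      apply mul_le_mul_of_nonneg_left _ (by positivity)
      nlinarith
    nlinarith
  have hone : (1000000 : ℝ) ≤ x ^ 4 := by
    have : (1000000 : ℝ) ≤ x := by linarith
    calc (1000000 : ℝ) ≤ x := this
      _ = x ^ 1 := (pow_one x).symm
      _ ≤ x ^ 4 := pow_le_pow_right₀ (by linarith) (by norm_num)
  have key : (a + b) * M + (28 + C1) * x ^ 2 * L + 1 ≤ 2 / 1000000 * x ^ 4 * L := by
    have k1 : (a + b) * M ≤ 2 * x ^ 4 * M := mul_le_mul_of_nonneg_right (by linarith) hM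
    have k2 : 2 * x ^ 4 * M ≤ 5 / 10000000 * x ^ 4 * L := by
      have : x ^ 4 * (4000000 * M) ≤ x ^ 4 * L := mul_le_mul_of_nonneg_left (by linarith) hx4.le
      linarith
    have k3 : (28 + C1) * x ^ 2 * L ≤ 5 / 10000000 * x ^ 4 * L := by
      apply mul_le_mul_of_nonneg_right _ (by linarith)
      linarith
    have k4 : 1 ≤ 1 / 1000000 * x ^ 4 * L := by
      have : (1000000 : ℝ) * 1 ≤ x ^ 4 * L := mul_le_mul hone hLpos (by norm_num) hx4.le
      linarith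
    linarith
  have hx2L : 8 * L ≤ 8 * x ^ 2 * L := by
    have : (1 : ℝ) ≤ x ^ 2 := by nlinarith
    nlinarith
  obtain ⟨E, hE⟩ : ∃ E : ℝ, E = 2 * a * L + 8 * L + (b * M + 1 / 10000 * b * L + 10 * x ^ 2 * L)
      + (a * M + 1 / 10000 * a * L + 10 * x ^ 2 * L) + C1 * x ^ 2 * L := ⟨_, rfl⟩
  have hEle : E ≤ (2 * a + 1 / 10000 * (a + b)) * L + ((a + b) * M + (28 + C1) * x ^ 2 * L) := by
    rw [hE]
    linarith
  have hx4L : 0 ≤ x ^ 4 * L := by positivity
  have T1 : E - thr J ≤ -1 := by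
    have ht : thr J = 713 / 200000 * x ^ 4 * L := by
      rw [thr, hL, hx]
    rw [ht]
    have : (2 * a + 1 / 10000 * (a + b)) * L ≤
        (2 * (2 / 1125) + 1 / 10000 * (2001 / 1000 * (2 / 1125))) * x ^ 4 * L := by
      apply mul_le_mul_of_nonneg_right _ (by linarith)
      linarith
    linarith
  have T2 : E - (2 - 1 / 10000) * b * L ≤ -1 := by
    have : (2 * a + 1 / 10000 * (a + b)) * L - (2 - 1 / 10000) * b * L ≤
        -(2 / 1000000) * x ^ 4 * L := by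
      have h5 : (2 * a + 1 / 10000 * (a + b)) * L - (2 - 1 / 10000) * b * L =
          (2 * a + 1 / 10000 * (a + b) - (2 - 1 / 10000) * b) * L := by ring
      rw [h5]
      apply mul_le_mul_of_nonneg_right _ (by linarith)
      linarith
    linarith
  have hfin : Real.exp (2 * a * L + 8 * L) *
      Real.exp (b * M + 1 / 10000 * b * L + 10 * x ^ 2 * L) *
      Real.exp (a * M + 1 / 10000 * a * L + 10 * x ^ 2 * L) *
      (Real.exp (C1 * x ^ 2 * L) * (Real.exp (-(thr J)) +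
        Real.exp (-((2 - 1 / 10000) * b * L)))) < 1 := by
    have h6 : Real.exp (2 * a * L + 8 * L) *
      Real.exp (b * M + 1 / 10000 * b * L + 10 * x ^ 2 * L) *
      Real.exp (a * M + 1 / 10000 * a * L + 10 * x ^ 2 * L) *
      (Real.exp (C1 * x ^ 2 * L) * (Real.exp (-(thr J)) +
        Real.exp (-((2 - 1 / 10000) * b * L)))) =
      Real.exp (E - thr J) + Real.exp (E - (2 - 1 / 10000) * b * L) := by
      rw [sub_eq_add_neg E, sub_eq_add_neg E, Real.exp_add E, Real.exp_add E, hE,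
        Real.exp_add _ (C1 * x ^ 2 * L), Real.exp_add _ (a * M + 1 / 10000 * a * L + 10 * x ^ 2 * L),
        Real.exp_add _ (b * M + 1 / 10000 * b * L + 10 * x ^ 2 * L)]
      ring
    rw [h6]
    have h7 := Real.exp_le_exp.mpr T1
    have h8 := Real.exp_le_exp.mpr T2
    have h9 : Real.exp (-1) < 1 / 2 := by
      rw [Real.exp_neg, inv_lt_comm₀ (Real.exp_pos _) (by norm_num)]
      have := Real.exp_one_gt_d9
      norm_num
      linarith
    linarith
  refine lt_of_le_of_lt ?_ hfin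
  have hlast : (Real.exp (C1 * (J : ℝ) ^ 2 * Real.log J) * (Real.exp (-(thr J)) +
      Real.exp (-((2 - 1 / 10000) * k' * Real.log J)))) =
      (Real.exp (C1 * x ^ 2 * L) * (Real.exp (-(thr J)) +
        Real.exp (-((2 - 1 / 10000) * b * L)))) := by
    rw [hL, hx, hb]
  rw [hlast]
  apply mul_le_mul_of_nonneg_right _ (by positivity)
  have p0 : 0 ≤ (J : ℝ) ^ (2 * k) * ((k : ℝ) * k') := by positivity
  have p1 : 0 ≤ (2 * (ρ * (J : ℝ))) ^ k' / Real.exp ((1 - 1 / 10000) * k' * Real.log J) *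
      (2 * (J : ℝ) ^ 2 * k' * (J : ℝ) ^ 3) ^ (J ^ 2) := by positivity
  have p2 : 0 ≤ (2 * (ρ * (J : ℝ))) ^ k / Real.exp ((1 - 1 / 10000) * k * Real.log J) *
      (2 * (J : ℝ) ^ 2 * k * (J : ℝ) ^ 3) ^ (J ^ 2) := by positivity
  exact mul_le_mul (mul_le_mul e0 B1 p1 (Real.exp_pos _).le) B2 p2 (by positivity)

end Pool.Agent.H6.EE5.NUM
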